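import Mathlib

set_option autoImplicit false

/-!
# Pseudo-automorphisms of a cubic norm form: all solutions

`T` is the norm form of the ring of integers of the cubic field `ℚ(α)`, `α ^ 3 - 3 α + 1 = 0`, in the
basis `1, α, α ^ 2 - 2`. We determine all `f, h : ℤ → ℂ` with `h (T x y z) = T (f x) (f y) (f z)` for all
integers `x, y, z`: either `f n = c n` and `h m = c ^ 3 m` on the values of `T`, or `f = c` is constant
and `h m = - c ^ 3` on the values of `T`.

Proof. The identities `T x y 0 = T x 0 y`, `T x 0 0 = T 0 (-x) 0 = T (-x) (-x) (-x)`,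
`T x y 0 = T x (-y) (-y)`, `T (-z) (x + z) 0 = T (-x) 0 (-z)` and `T 3 0 1 = T (-1) (-1) 1` give, in
turn: `f 0 = 0` or `f` is constant; if `f 0 = 0` then `f` is odd; `f (x + z) = f x + f z` unless
`f x = f z = - f (x + z)`; and the exceptional case is excluded by the last identity.
-/

namespace Pool.Agent.Results.MP_993e82_nt.AllSolutions

/-- The cubic norm form `N(x + y α + z α')`, with `α ^ 3 - 3 α + 1 = 0` and `α' = α ^ 2 - 2`. -/
def T {R : Type*} [CommRing R] (x y z : R) : R :=
  x ^ 3 - 3 * x * y ^ 2 - 3 * x * z ^ 2 + 3 * x * y * z - y ^ 3 + 6 * y ^ 2 * z - 3 * y * z ^ 2 - z ^ 3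

section

variable {f : ℤ → ℂ}

theorem const_of_ne (H : ∀ x y z x' y' z' : ℤ, T x y z = T x' y' z' →
    T (f x) (f y) (f z) = T (f x') (f y') (f z')) (h0 : f 0 ≠ 0) (y : ℤ) : f y = f 0 := by
  have h1 := H y y 0 y 0 y (by simp only [T]; ring)
  have h2 : 9 * (f y * f 0 * (f y - f 0)) = 0 := by
    simp only [T] at h1
    linear_combination h1
  have h3 : f y * f 0 * (f y - f 0) = 0 := by
    rcases mul_eq_zero.1 h2 with h | h
    · norm_num at h
    · exact h
  rcases mul_eq_zero.1 h3 with h | h
  · rcases mul_eq_zero.1 h with h | h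
    · exfalso
      have h4 := H 0 y 0 y y y (by simp only [T]; ring)
      simp only [T, h] at h4
      apply h0
      have h5 : (f 0) ^ 3 = 0 := by linear_combination h4 / (-3)
      exact pow_eq_zero_iff (n := 3) (by norm_num) |>.1 h5
    · exact absurd h h0
  · exact sub_eq_zero.1 h

theorem odd_of_zero (H : ∀ x y z x' y' z' : ℤ, T x y z = T x' y' z' →
    T (f x) (f y) (f z) = T (f x') (f y') (f z')) (h0 : f 0 = 0) (y : ℤ) : f (-y) = - f y := by
  by_cases hf : ∀ x, f x = 0
  · simp [hf]
  push Not at hf
  obtain ⟨x, hx⟩ := hf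
  have h1 := H y 0 0 0 (-y) 0 (by simp only [T]; ring)
  have h2 := H x y 0 x (-y) (-y) (by simp only [T]; ring)
  simp only [T, h0] at h1 h2
  have h3 : f y ^ 3 = - f (-y) ^ 3 := by linear_combination h1
  have h4 : 3 * f x * (f (-y) ^ 2 - f y ^ 2) = 0 := by linear_combination h2 + h3
  have h5 : f (-y) ^ 2 - f y ^ 2 = 0 := by
    rcases mul_eq_zero.1 h4 with h | h
    · rcases mul_eq_zero.1 h with h | h
      · norm_num at h
      · exact absurd h hx
    · exact h
  have h6 : f y ^ 2 * (f y + f (-y)) = 0 := by linear_combination h3 - f (-y) * h5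
  rcases mul_eq_zero.1 h6 with h | h
  · have h7 : f y = 0 := pow_eq_zero_iff (n := 2) (by norm_num) |>.1 h
    have h8 : f (-y) ^ 2 = 0 := by linear_combination h5 + f y * h7
    have h9 : f (-y) = 0 := pow_eq_zero_iff (n := 2) (by norm_num) |>.1 h8
    rw [h7, h9, neg_zero]
  · linear_combination h

theorem add_or (H : ∀ x y z x' y' z' : ℤ, T x y z = T x' y' z' →
    T (f x) (f y) (f z) = T (f x') (f y') (f z')) (h0 : f 0 = 0) (x z : ℤ) :
    f (x + z) = f x + f z ∨ (f x = f z ∧ f (x + z) = - f x) := by
  have E : ∀ x z : ℤ, (f (x + z) - f x - f z) *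
      ((f (x + z) - f z) ^ 2 + f x * (f (x + z) - f z) + f x ^ 2 - 3 * f z ^ 2) = 0 := by
    intro x z
    have h1 := H (-z) (x + z) 0 (-x) 0 (-z) (by simp only [T]; ring)
    rw [odd_of_zero H h0 z, odd_of_zero H h0 x, h0] at h1
    simp only [T] at h1
    linear_combination -h1
  rcases mul_eq_zero.1 (E x z) with h1 | h1
  · left; linear_combination h1
  have E' := E z x
  rw [add_comm z x] at E'
  rcases mul_eq_zero.1 E' with h2 | h2
  · left; linear_combination h2
  have h3 : 3 * (f x - f z) * (f (x + z) + f x + f z) = 0 := by linear_combination h1 - h2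
  rcases mul_eq_zero.1 h3 with h | h
  · have h4 : f x = f z := by
      rcases mul_eq_zero.1 h with h | h
      · norm_num at h
      · linear_combination h
    have h5 : (f (x + z) - 2 * f x) * (f (x + z) + f x) = 0 := by
      rw [← h4] at h1
      linear_combination h1
    rcases mul_eq_zero.1 h5 with h | h
    · left; rw [← h4]; linear_combination h
    · right; exact ⟨h4, by linear_combination h⟩
  · left
    have h4 : f (x + z) = - (f x + f z) := by linear_combination h
    have h5 : (f x + f z) ^ 2 = 0 := by
      rw [h4] at h1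
      linear_combination h1
    have h6 : f x + f z = 0 := pow_eq_zero_iff (n := 2) (by norm_num) |>.1 h5
    rw [h4, h6, neg_zero]

theorem linear_of_zero (H : ∀ x y z x' y' z' : ℤ, T x y z = T x' y' z' →
    T (f x) (f y) (f z) = T (f x') (f y') (f z')) (h0 : f 0 = 0) (n : ℤ) : f n = f 1 * n := by
  have P := add_or H h0
  have key : ∀ n : ℕ, f (n : ℤ) = f 1 * n := by
    by_cases ha : f 1 = 0
    · intro n
      rw [ha, zero_mul]
      induction n with
      | zero => simpa using h0
      | succ n ih =>
        push_cast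
        rcases P n 1 with h | ⟨-, h⟩
        · rw [h, ih, ha, add_zero]
        · rw [h, ih, neg_zero]
    · have h2 : f 2 = 2 * f 1 := by
        rcases P 1 1 with h | ⟨-, h⟩
        · rw [show (2 : ℤ) = 1 + 1 by norm_num, h]; ring
        · exfalso
          have h2 : f 2 = - f 1 := by rw [show (2 : ℤ) = 1 + 1 by norm_num, h]
          have h3 : f 3 = 0 := by
            rcases P 2 1 with h' | ⟨h', -⟩
            · rw [show (3 : ℤ) = 2 + 1 by norm_num, h', h2]; ring
            · exfalso
              rw [h2] at h'
              apply ha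
              linear_combination (-1 / 2 : ℂ) * h'
          have h4 := H 3 0 1 (-1) (-1) 1 (by simp only [T]; norm_num)
          rw [h3, h0, odd_of_zero H h0 1] at h4
          simp only [T] at h4
          apply ha
          have h5 : f 1 ^ 3 = 0 := by linear_combination (-1 / 18 : ℂ) * h4
          exact pow_eq_zero_iff (n := 3) (by norm_num) |>.1 h5
      intro n
      rcases Nat.lt_or_ge n 2 with hn | hn
      · interval_cases n
        · simpa using h0
        · simp
      · induction n, hn using Nat.le_induction with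
        | base => push_cast; rw [h2]; ring
        | succ n hn ih =>
          push_cast
          rcases P n 1 with h | ⟨h, -⟩
          · rw [h, ih]; ring
          · exfalso
            rw [ih] at h
            have h3 : f 1 * ((n : ℂ) - 1) = 0 := by linear_combination h
            rcases mul_eq_zero.1 h3 with h | h
            · exact ha h
            · have h4 : (n : ℂ) = ((1 : ℕ) : ℂ) := by push_cast; linear_combination h
              have h5 : n = 1 := Nat.cast_injective h4
              omega
  rcases Int.eq_nat_or_neg n with ⟨m, rfl | rfl⟩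
  · have := key m
    push_cast at this ⊢
    exact this
  · rw [odd_of_zero H h0, key m]
    push_cast
    ring

end

/-- **All pseudo-automorphisms of the cubic norm form `T`.** For functions `f, h : ℤ → ℂ` one has
`h (T x y z) = T (f x) (f y) (f z)` for all integers `x, y, z` if and only if, for some complex `c`, either
`f n = c n` for all `n` and `h m = c ^ 3 m` for all `m` of the form `T x y z`, or
`f n = c` for all `n` and `h m = - c ^ 3` for all `m` of the form `T x y z`. -/
theorem result (f h : ℤ → ℂ) :
    (∀ x y z : ℤ, h (T x y z) = T (f x) (f y) (f z)) ↔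
      ∃ c : ℂ, ((∀ n, f n = c * n) ∧ ∀ x y z : ℤ, h (T x y z) = c ^ 3 * (T x y z : ℤ)) ∨
        ((∀ n, f n = c) ∧ ∀ x y z : ℤ, h (T x y z) = - c ^ 3) := by
  constructor
  · intro hf
    have H : ∀ x y z x' y' z' : ℤ, T x y z = T x' y' z' →
        T (f x) (f y) (f z) = T (f x') (f y') (f z') := by
      intro x y z x' y' z' he
      rw [← hf, ← hf, he]
    by_cases h0 : f 0 = 0
    · refine ⟨f 1, Or.inl ⟨linear_of_zero H h0, fun x y z => ?_⟩⟩
      rw [hf, linear_of_zero H h0 x, linear_of_zero H h0 y, linear_of_zero H h0 z]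
      simp only [T]
      push_cast
      ring
    · refine ⟨f 0, Or.inr ⟨const_of_ne H h0, fun x y z => ?_⟩⟩
      rw [hf, const_of_ne H h0 x, const_of_ne H h0 y, const_of_ne H h0 z]
      simp only [T]
      ring
  · rintro ⟨c, ⟨h1, h2⟩ | ⟨h1, h2⟩⟩ x y z
    · rw [h2, h1, h1, h1]
      simp only [T]
      push_cast
      ring
    · rw [h2, h1, h1, h1]
      simp only [T]
      ring

end Pool.Agent.Results.MP_993e82_nt.AllSolutions
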